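import Pool.Agent.H83.UE.Targets

/-! UNI: uniform convergence of the normalised sums over fibres. -/

set_option autoImplicit false

open Polynomial MeasureTheory Filter Topology Set

namespace Pool.Agent.H68.UDA

open Pool.Agent.H83.UE

lemma uni_hev {D : ℕ} {B : ℂ[X]} (hB : B.natDegree ≤ D) (w : ℂ) : hev D B (w, 1) = B.eval w := by
  unfold hev
  rw [Polynomial.eval_eq_sum_range' (Nat.lt_succ_of_le hB)]
  refine Finset.sum_congr rfl fun i _ => ?_
  simp

lemma uni_log {v : ℂ × ℂ} {z : ℂ} (hv : wd v (z, 1) ≠ 0) :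
    Real.log ‖wd v (z, 1)‖ = Real.log (cd v (z, 1)) + Real.log ‖v‖ + Real.log ‖((z, 1) : ℂ × ℂ)‖ := by
  have h1 : v ≠ 0 := by
    rintro rfl
    exact hv (by simp [wd])
  have h2 : ((z, 1) : ℂ × ℂ) ≠ 0 := by
    intro h
    have := congrArg Prod.snd h
    simp at this
  have h1' : ‖v‖ ≠ 0 := norm_ne_zero_iff.2 h1
  have h2' : ‖((z, 1) : ℂ × ℂ)‖ ≠ 0 := norm_ne_zero_iff.2 h2
  have h3 : ‖wd v (z, 1)‖ ≠ 0 := norm_ne_zero_iff.2 hv
  unfold cd
  rw [Real.log_div h3 (mul_ne_zero h1' h2'), Real.log_mul h1' h2']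
  ring

theorem pf_UNI (h1 : T_IT) (h2 : T_VN) : T_UNI := by
  intro d hd g κ hκ G hG ρ hρ
  obtain ⟨hκ1, hκd, hgood⟩ := hκ
  obtain ⟨hGc, -, ⟨C2, hC2⟩, -⟩ := hG
  have hd0 : (0 : ℝ) < d := by
    have : (2 : ℝ) ≤ d := by exact_mod_cast hd
    linarith
  have hC20 : 0 ≤ C2 := by
    have := (abs_nonneg _).trans (hC2 0 0)
    simpa using this
  -- the support
  obtain ⟨R, hR⟩ : ∃ R : ℝ, ∀ w, w ∉ Metric.ball (0 : ℂ) R → ρ w = 0 := by
    obtain ⟨R, hR⟩ := hρ.2.1.isCompact.isBounded.subset_ball (0 : ℂ)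
    refine ⟨R, fun w hw => ?_⟩
    by_contra hne
    exact hw (hR (subset_tsupport _ (Function.mem_support.2 hne)))
  obtain ⟨M, hM⟩ : ∃ M : ℝ, ∀ w, ‖ρ w‖ ≤ M := by
    obtain ⟨M, hM⟩ := hρ.1.norm.bddAbove_range_of_hasCompactSupport hρ.2.1.norm
    exact ⟨M, fun w => hM ⟨w, rfl⟩⟩
  have hM0 : 0 ≤ M := (norm_nonneg _).trans (hM 0)
  have hρi : Integrable ρ := hρ.1.integrable_of_hasCompactSupport hρ.2.1
  obtain ⟨C1, hC10, hC1⟩ := hgood R
  refine ⟨M * C1 + C2 * ∫ w, ‖ρ w‖, by positivity, ?_⟩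
  intro n z
  obtain ⟨hp1, hp2, hp3, hcop, hF⟩ := h1 d (by omega) g n
  have hdn : 0 < (d : ℝ) ^ n := by positivity
  -- the polynomial
  have hA : g.fib n z ≠ 0 := by
    intro h0
    have he : (g.it n).1 = C z * (g.it n).2 := sub_eq_zero.1 h0
    have hu : IsUnit (g.it n).2 := by
      rw [he] at hcop
      exact hcop.isUnit_of_dvd' (Dvd.intro_left _ rfl) dvd_rfl
    have hn2 : (g.it n).2.natDegree = 0 := Polynomial.natDegree_eq_zero_of_isUnit hu
    have hn1 : (g.it n).1.natDegree = 0 := by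
      rw [he]
      refine Nat.le_zero.1 ((natDegree_C_mul_le _ _).trans hn2.le)
    have hpos : 0 < d ^ n := by positivity
    rcases hp3 with h | h <;> omega
  have hFw : ∀ w : ℂ, g.F^[n] (w, 1) = ((g.it n).1.eval w, (g.it n).2.eval w) := by
    intro w
    rw [hF, uni_hev hp1, uni_hev hp2]
  have hAe : ∀ w : ℂ, (g.fib n z).eval w = wd (g.F^[n] (w, 1)) (z, 1) := by
    intro w
    rw [hFw]
    simp [RatMap.fib, wd]
    ring
  obtain ⟨hi1, hi2⟩ := h2 ρ hρ (g.fib n z) hA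
  -- continuity of the norm
  have hvne : ∀ w : ℂ, g.F^[n] (w, 1) ≠ 0 := by
    intro w h0
    rw [hFw] at h0
    obtain ⟨a, b, hab⟩ := hcop
    have h3 := congrArg (fun p => Polynomial.eval w p) hab
    have e1 : (g.it n).1.eval w = 0 := congrArg Prod.fst h0
    have e2 : (g.it n).2.eval w = 0 := congrArg Prod.snd h0
    simp [e1, e2] at h3
  have hvc : Continuous fun w : ℂ => Real.log ‖g.F^[n] (w, 1)‖ := by
    refine Continuous.log ?_ fun w => norm_ne_zero_iff.2 (hvne w)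
    simp only [hFw]
    exact ((g.it n).1.continuous.prodMk (g.it n).2.continuous).norm
  have hi3 : Integrable (fun w => (Real.log ‖g.F^[n] (w, 1)‖ : ℂ) * ρ w) := by
    refine Continuous.integrable_of_hasCompactSupport ?_ hρ.2.1.mul_left
    exact (Complex.continuous_ofReal.comp hvc).mul hρ.1
  have hi4 : Integrable (fun w => (G w : ℂ) * ρ w) := by
    refine Continuous.integrable_of_hasCompactSupport ?_ hρ.2.1.mul_left
    exact (Complex.continuous_ofReal.comp hGc).mul hρ.1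
  set c0 : ℝ := Real.log ‖((z, 1) : ℂ × ℂ)‖ with hc0
  have hae : ∀ᵐ w : ℂ, (g.fib n z).eval w ≠ 0 := by
    have hf : {w : ℂ | (g.fib n z).eval w = 0}.Finite := by
      refine ((g.fib n z).roots.toFinset.finite_toSet).subset ?_
      intro w hw
      simp only [Finset.mem_coe, Multiset.mem_toFinset]
      exact (Polynomial.mem_roots hA).2 hw
    have h0 := hf.measure_zero (volume : Measure ℂ)
    rw [ae_iff]
    simpa using h0
  have hcd : (fun w => (Real.log (cd (g.F^[n] (w, 1)) (z, 1)) : ℂ) * ρ w) =ᵐ[volume]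
      fun w => (Real.log ‖(g.fib n z).eval w‖ : ℂ) * ρ w -
        (Real.log ‖g.F^[n] (w, 1)‖ : ℂ) * ρ w - (c0 : ℂ) * ρ w := by
    filter_upwards [hae] with w hw
    rw [hAe w] at hw ⊢
    rw [uni_log hw]
    push_cast
    ring
  have hi5 : Integrable (fun w => (Real.log (cd (g.F^[n] (w, 1)) (z, 1)) : ℂ) * ρ w) :=
    ((hi1.sub hi3).sub (hρi.const_mul _)).congr hcd.symm
  have hI5 : ∫ w, (Real.log (cd (g.F^[n] (w, 1)) (z, 1)) : ℂ) * ρ w =
      (∫ w, (Real.log ‖(g.fib n z).eval w‖ : ℂ) * ρ w) -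
        ∫ w, (Real.log ‖g.F^[n] (w, 1)‖ : ℂ) * ρ w := by
    have e1 := integral_sub (hi1.sub hi3) (hρi.const_mul (c0 : ℂ))
    have e2 := integral_sub hi1 hi3
    simp only [Pi.sub_apply] at e1 e2
    rw [integral_congr_ae hcd, e1, e2, integral_const_mul, hρ.2.2, mul_zero, sub_zero]
  -- first bound
  have hb1 : ‖∫ w, (Real.log (cd (g.F^[n] (w, 1)) (z, 1)) : ℂ) * ρ w‖ ≤ M * C1 * κ ^ n := by
    have hκn : 0 ≤ κ ^ n := by positivity
    rw [← ENNReal.ofReal_le_ofReal_iff (by positivity)]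
    rw [ofReal_norm]
    refine (enorm_integral_le_lintegral_enorm _).trans ?_
    have hz : ((z, 1) : ℂ × ℂ) ≠ 0 := by
      intro h
      have := congrArg Prod.snd h
      simp at this
    have hbd := hC1 n (z, 1) hz
    calc ∫⁻ w, ‖(Real.log (cd (g.F^[n] (w, 1)) (z, 1)) : ℂ) * ρ w‖ₑ
        ≤ ∫⁻ w, (Metric.ball (0 : ℂ) R).indicator (fun w =>
            ENNReal.ofReal M * ENNReal.ofReal |Real.log (cd (g.F^[n] (w, 1)) (z, 1))|) w := by
          refine lintegral_mono fun w => ?_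
          by_cases hw : w ∈ Metric.ball (0 : ℂ) R
          · rw [indicator_of_mem hw, enorm_mul, mul_comm, ← ofReal_norm, ← ofReal_norm,
              Complex.norm_real, Real.norm_eq_abs]
            gcongr
            exact hM w
          · rw [hR w hw]
            simp
      _ = ENNReal.ofReal M * ∫⁻ w in Metric.ball (0 : ℂ) R,
            ENNReal.ofReal |Real.log (cd (g.F^[n] (w, 1)) (z, 1))| := by
          rw [lintegral_indicator measurableSet_ball, lintegral_const_mul' _ _ ENNReal.ofReal_ne_top]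
      _ ≤ ENNReal.ofReal M * ENNReal.ofReal (C1 * κ ^ n) := by gcongr
      _ = ENNReal.ofReal (M * C1 * κ ^ n) := by
          rw [← ENNReal.ofReal_mul hM0, mul_assoc]
  have hb2 : ‖∫ w, (((d : ℝ) ^ n)⁻¹ * Real.log ‖g.F^[n] (w, 1)‖ - G w : ℝ) * ρ w‖ ≤
      C2 / (d : ℝ) ^ n * ∫ w, ‖ρ w‖ := by
    rw [← integral_const_mul]
    refine norm_integral_le_of_norm_le (hρi.norm.const_mul _) (Eventually.of_forall fun w => ?_)
    rw [norm_mul, Complex.norm_real, Real.norm_eq_abs]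
    refine mul_le_mul_of_nonneg_right ?_ (norm_nonneg _)
    have := hC2 n w
    rw [hFw, Prod.norm_def]
    exact this
  have hb3 : ∫ w, (((d : ℝ) ^ n)⁻¹ * Real.log ‖g.F^[n] (w, 1)‖ - G w : ℝ) * ρ w =
      ((d : ℂ) ^ n)⁻¹ * (∫ w, (Real.log ‖g.F^[n] (w, 1)‖ : ℂ) * ρ w) -
        ∫ w, (G w : ℂ) * ρ w := by
    rw [← integral_const_mul, ← integral_sub (hi3.const_mul _) hi4]
    refine integral_congr_ae (Eventually.of_forall fun w => ?_)
    push_cast
    ring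
  have hfin : ((d : ℂ) ^ n)⁻¹ * ((g.fib n z).roots.map (pot ρ)).sum - ∫ w, (G w : ℂ) * ρ w =
      ((d : ℂ) ^ n)⁻¹ * (∫ w, (Real.log (cd (g.F^[n] (w, 1)) (z, 1)) : ℂ) * ρ w) +
      ∫ w, (((d : ℝ) ^ n)⁻¹ * Real.log ‖g.F^[n] (w, 1)‖ - G w : ℝ) * ρ w := by
    rw [hb3, hi2, hI5]
    ring
  rw [hfin]
  refine (norm_add_le _ _).trans ?_
  rw [norm_mul, norm_inv, norm_pow, Complex.norm_natCast, div_pow]
  have hκn : 1 ≤ κ ^ n := one_le_pow₀ hκ1
  have h5 : 0 ≤ ∫ w, ‖ρ w‖ := by positivity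
  calc _ ≤ ((d : ℝ) ^ n)⁻¹ * (M * C1 * κ ^ n) + C2 / (d : ℝ) ^ n * ∫ w, ‖ρ w‖ := by
        gcongr
    _ ≤ ((d : ℝ) ^ n)⁻¹ * (M * C1 * κ ^ n) + (C2 * κ ^ n) / (d : ℝ) ^ n * ∫ w, ‖ρ w‖ := by
        gcongr
        exact le_mul_of_one_le_right hC20 hκn
    _ = _ := by
        field_simp

end Pool.Agent.H68.UDA
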