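import Pool.Agent.H83.UE.Targets
import Pool.Agent.H66.LIM.LI
import Pool.Agent.H84.LIM.SM
import Pool.Agent.H65.LIM.POL
import Pool.Agent.H47.LIM.ZF

/-! VN: the sum of a logarithmic potential over the roots of a polynomial. -/

set_option autoImplicit false

open Polynomial MeasureTheory Filter Topology Set

namespace Pool.Agent.H68.UDA

open Pool.Agent.H83.UE

lemma vn_li : Pool.Agent.H20.LIM.T_LI := Pool.Agent.H66.LIM.pf_li
  (Pool.Agent.H84.LIM.sm Pool.Agent.H65.LIM.pf_pol Pool.Agent.H47.LIM.pf_zf)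

lemma vn_loc {A : ℂ[X]} (hA : A ≠ 0) :
    LocallyIntegrable (fun w : ℂ => Real.log ‖A.eval w‖) volume := by
  refine vn_li (fun z => A.eval z) A.differentiable ?_
  by_contra hne
  push Not at hne
  exact hA (Polynomial.funext (by simpa using hne))

lemma vn_int {ρ : ℂ → ℂ} (hρ : Continuous ρ) (hc : HasCompactSupport ρ) {A : ℂ[X]} (hA : A ≠ 0) :
    Integrable (fun w => (Real.log ‖A.eval w‖ : ℂ) * ρ w) := by
  have h := (vn_loc hA).integrable_smul_right_of_hasCompactSupport hρ hc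
  have he : (fun w => (Real.log ‖A.eval w‖ : ℂ) * ρ w) =
      fun w => Real.log ‖A.eval w‖ • ρ w := by
    funext w
    rw [Complex.real_smul]
  rw [he]
  exact h

lemma vn_ae {A : ℂ[X]} (hA : A ≠ 0) : ∀ᵐ w : ℂ, A.eval w ≠ 0 := by
  have hf : {w : ℂ | A.eval w = 0}.Finite := by
    refine (A.roots.toFinset.finite_toSet).subset ?_
    intro w hw
    simp only [Finset.mem_coe, Multiset.mem_toFinset]
    exact (Polynomial.mem_roots hA).2 hw
  have h0 := hf.measure_zero (volume : Measure ℂ)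
  rw [ae_iff]
  simpa using h0

lemma vn_mul {ρ : ℂ → ℂ} (hρ : Continuous ρ) (hc : HasCompactSupport ρ) {A B : ℂ[X]} (hA : A ≠ 0)
    (hB : B ≠ 0) : ∫ w, (Real.log ‖(A * B).eval w‖ : ℂ) * ρ w =
      (∫ w, (Real.log ‖A.eval w‖ : ℂ) * ρ w) + ∫ w, (Real.log ‖B.eval w‖ : ℂ) * ρ w := by
  rw [← integral_add (vn_int hρ hc hA) (vn_int hρ hc hB)]
  refine integral_congr_ae ?_
  filter_upwards [vn_ae hA, vn_ae hB] with w h1 h2
  rw [eval_mul, norm_mul, Real.log_mul (norm_ne_zero_iff.2 h1) (norm_ne_zero_iff.2 h2)]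
  push_cast
  ring

lemma vn_multiset {ρ : ℂ → ℂ} (hD : Dens ρ) (s : Multiset ℂ) :
    ∫ w, (Real.log ‖((s.map fun r => X - C r).prod).eval w‖ : ℂ) * ρ w = (s.map (pot ρ)).sum := by
  induction s using Multiset.induction_on with
  | empty => simp
  | cons a s ih =>
    rw [Multiset.map_cons, Multiset.prod_cons, Multiset.map_cons, Multiset.sum_cons, ← ih]
    have h1 : (s.map fun r => X - C r).prod ≠ 0 := by
      refine Multiset.prod_ne_zero ?_
      intro hm
      obtain ⟨r, -, hr⟩ := Multiset.mem_map.1 hm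
      exact X_sub_C_ne_zero r hr
    rw [vn_mul hD.1 hD.2.1 (X_sub_C_ne_zero a) h1]
    congr 1
    unfold pot
    refine integral_congr_ae (Eventually.of_forall fun w => ?_)
    simp only [eval_sub, eval_X, eval_C]
    rw [norm_sub_rev]

theorem pf_VN : T_VN := by
  intro ρ hD A hA
  refine ⟨vn_int hD.1 hD.2.1 hA, ?_⟩
  have hs : A = C A.leadingCoeff * (A.roots.map fun r => X - C r).prod :=
    (IsAlgClosed.splits A).eq_prod_roots
  have hC : (C A.leadingCoeff : ℂ[X]) ≠ 0 := by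
    simpa using hA
  have h1 : (A.roots.map fun r => X - C r).prod ≠ 0 := by
    intro h0
    rw [h0, mul_zero] at hs
    exact hA hs
  have h2 : ∫ w, (Real.log ‖A.eval w‖ : ℂ) * ρ w =
      ∫ w, (Real.log ‖(C A.leadingCoeff * (A.roots.map fun r => X - C r).prod).eval w‖ : ℂ) *
        ρ w := by rw [← hs]
  rw [h2, vn_mul hD.1 hD.2.1 hC h1, vn_multiset hD]
  simp only [eval_C]
  rw [integral_const_mul, hD.2.2, mul_zero, zero_add]

end Pool.Agent.H68.UDA
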